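import Pool.Agent.Q88.KO.Main
import Pool.Agent.Q88.KO.PA
import Pool.Agent.Q190.KO.PB
import Pool.Agent.Q88.KO.DB
import Pool.Agent.Q88.KO.PD1
import Pool.Agent.Q88.KO.PD2
import Pool.Agent.Q88.KO.PD3
import Pool.Agent.Q88.KO.PW
import Pool.Agent.Q190.KO.PNF
import Pool.Agent.Q88.KO.Pad
import Pool.Agent.Q190.KO.PlA
import Pool.Agent.Q88.KO.PFB
import Pool.Agent.Q88.KO.PNC
import Pool.Agent.Q88.KO.PG

/-!
# An Orlicz space on `[0,1]` with the Kato property which is not 2-disjointly homogeneous

The answer to Q2 of MP_8301f5_an (and so to Q1, Orlicz spaces are rearrangement invariant) is no.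

## The space

`Φ(s)` is comparable with `s² exp(H(log s))` where `H ≥ 0` has Lipschitz constant at most `1/4`, `H = 0`
on `(-∞, 0]` and on an unbounded set `Z`, the set of the ends of the blocks, such that

* (flat) `H` is almost constant, `|H(x - t) - H(x)| ≤ 1` for `0 ≤ t ≤ u`, at all points `x` with large
  distance, depending on `u`, to `Z`;
* (top) for each `M` there is `u > 0` such that `H(z - u) ≥ M` for all large `z ∈ Z`;
* (scale) there are scales `b_k ≥ 0` such that `H(x - b_k - t) ≤ 1` for `0 ≤ t ≤ k` and for all large `x`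
  with a bounded distance to `Z` (for large `k`).

## The proof

**Not 2-DH.** Let `x_n` be normalized and disjoint, each one a multiple `s_n` of the indicator function of
a set, `log s_n ∈ Z`. If a subsequence is equivalent to the unit vector basis of `ℓ₂` then the sum of
`e^(2u)` of the vectors `e^(-u) x_n` has bounded norm, and so it has bounded modular. But this modular is
comparable with the mean of `exp(H(log s_n - u)) ≥ e^M`.

**The Kato property.** Let `T` be a bounded operator which is not compact.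

1. There is a sequence with `‖T r_n‖ ≥ δ` which is either bounded in `L^∞` and weakly null in `L²`, or
   bounded in the space and disjoint.
2. Images of these sequences are weakly null in `L²`. Since `Φ(s) ≥ s²/5`, each sequence `y_n` which is
   bounded, weakly null in `L²` and has norms `≥ δ` has a subsequence with a lower 2-estimate: either the
   norms of `y_n` in `L²` are bounded from below or a subsequence is, up to a small perturbation,
   disjoint.
3. In the first case a subsequence of `r_n` has an upper 2-estimate in `L⁴`, hence in the space, and so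
   `T` is an isomorphism on the closed span of a sequence equivalent to the basis of `ℓ₂`.
4. In the second case the sequence may be replaced by the restrictions of the terms to suitable sets, such
   that the values of all terms are either, in the logarithmic scale, at a bounded distance to `Z`, or
   far from `Z`. In both cases there are blocks `g_k = τ_k Σ_(n ∈ S_k) r_n` with `τ_k² |S_k| ≥ 1` which
   satisfy an upper 2-estimate: by (scale) with `τ_k = e^(-b_k)` in the first case and by (flat) with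
   `g_k` a subsequence of `r_n` in the second case. The lower 2-estimate of `T r_n` gives a lower 2-estimate
   for `T g_k`, and again `T` is an isomorphism on an infinite dimensional subspace.

(Steps of the proof: helper88, helper190, helper210, helper238.)
-/

set_option autoImplicit false

namespace Pool.Agent.Results.MP_8301f5_an.KatoNotTwoDH

open MeasureTheory Set
open scoped ENNReal

/-- Lebesgue measure on `[0,1]`. -/
noncomputable def mu : Measure ℝ := volume.restrict (Icc 0 1)

/-- Orlicz functions: convex, nondecreasing and continuous on `[0,∞)`, zero at `0`, not identically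
zero. (Only the values on `[0,∞)` matter.) -/
structure IsOrlicz (Φ : ℝ → ℝ) : Prop where
  convex : ConvexOn ℝ (Ici 0) Φ
  mono : MonotoneOn Φ (Ici 0)
  cont : ContinuousOn Φ (Ici 0)
  zero : Φ 0 = 0
  ne : ∃ s, 0 ≤ s ∧ Φ s ≠ 0

/-- The modular `∫ Φ(|f|)` on `[0,1]`. -/
noncomputable def modular (Φ : ℝ → ℝ) (f : ℝ → ℝ) : ℝ≥0∞ := ∫⁻ t, ENNReal.ofReal (Φ |f t|) ∂mu

/-- The normed space `E` is, via the linear injection `J` to the classes of measurable functions on
`[0,1]` modulo equality almost everywhere, the Orlicz space of `Φ` with the Luxemburg norm: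
the range of `J` consists of the classes `f` with `∫ Φ(|f|/s) < ∞` for some `s > 0`, and
`‖e‖ = inf {s > 0 : ∫ Φ(|J e|/s) ≤ 1}`. -/
structure IsOrliczSpace (Φ : ℝ → ℝ) (E : Type) [NormedAddCommGroup E] [NormedSpace ℝ E]
    (J : E →ₗ[ℝ] (ℝ →ₘ[mu] ℝ)) : Prop where
  inj : Function.Injective J
  mem : ∀ f : ℝ →ₘ[mu] ℝ, (∃ e, J e = f) ↔ ∃ s : ℝ, 0 < s ∧ modular Φ (fun t => f t / s) < ⊤
  norm : ∀ e, ‖e‖ = sInf {s : ℝ | 0 < s ∧ modular Φ (fun t => J e t / s) ≤ 1}

/-- `T` is strictly singular: it is not an isomorphism onto its image, i.e. not bounded below, on any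
closed subspace of infinite dimension. -/
def StrictlySingular {E : Type} [NormedAddCommGroup E] [NormedSpace ℝ E] (T : E →L[ℝ] E) : Prop :=
  ∀ M : Submodule ℝ E, IsClosed (M : Set E) → ¬ FiniteDimensional ℝ M →
    ¬ ∃ c > 0, ∀ x ∈ M, c * ‖x‖ ≤ ‖T x‖

/-- The Kato property: every strictly singular operator is compact. -/
def HasKatoProperty (E : Type) [NormedAddCommGroup E] [NormedSpace ℝ E] : Prop :=
  ∀ T : E →L[ℝ] E, StrictlySingular T → IsCompactOperator T

/-- `e` and `e'` are disjoint: at almost every point one of the two functions is zero. -/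
def AreDisjoint {E : Type} [NormedAddCommGroup E] [NormedSpace ℝ E] (J : E →ₗ[ℝ] (ℝ →ₘ[mu] ℝ))
    (e e' : E) : Prop := ∀ᵐ t ∂mu, J e t = 0 ∨ J e' t = 0

/-- The sequence `y` is equivalent to the unit vector basis of `ℓ₂`. -/
def EquivalentToEllTwo {E : Type} [NormedAddCommGroup E] [NormedSpace ℝ E] (y : ℕ → E) : Prop :=
  ∃ C : ℝ, 0 < C ∧ ∀ (s : Finset ℕ) (a : ℕ → ℝ),
    C⁻¹ * √(∑ i ∈ s, a i ^ 2) ≤ ‖∑ i ∈ s, a i • y i‖ ∧
      ‖∑ i ∈ s, a i • y i‖ ≤ C * √(∑ i ∈ s, a i ^ 2)

/-- 2-disjointly homogeneous: each normalized sequence of pairwise disjoint elements has a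
subsequence which is equivalent to the unit vector basis of `ℓ₂`. -/
def IsTwoDH (E : Type) [NormedAddCommGroup E] [NormedSpace ℝ E] (J : E →ₗ[ℝ] (ℝ →ₘ[mu] ℝ)) :
    Prop :=
  ∀ x : ℕ → E, (∀ n, ‖x n‖ = 1) → (∀ m n, m ≠ n → AreDisjoint J (x m) (x n)) →
    ∃ φ : ℕ → ℕ, StrictMono φ ∧ EquivalentToEllTwo fun k => x (φ k)

/-- **There is an Orlicz space on `[0,1]` which has the Kato property and is not 2-disjointly
homogeneous.** The second part says that this is a statement on the function `Φ`: any two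
normed spaces which are the Orlicz space of `Φ` are isometric, by a map which commutes with the maps to
the functions. -/
theorem result :
    (∃ Φ : ℝ → ℝ, IsOrlicz Φ ∧
      (∃ (E : Type) (_ : NormedAddCommGroup E) (_ : NormedSpace ℝ E) (_ : CompleteSpace E)
        (J : E →ₗ[ℝ] (ℝ →ₘ[mu] ℝ)), IsOrliczSpace Φ E J ∧ HasKatoProperty E ∧ ¬ IsTwoDH E J)) ∧
    (∀ (Φ : ℝ → ℝ) (E : Type) [NormedAddCommGroup E] [NormedSpace ℝ E]
      (J : E →ₗ[ℝ] (ℝ →ₘ[mu] ℝ)) (E' : Type) [NormedAddCommGroup E'] [NormedSpace ℝ E']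
      (J' : E' →ₗ[ℝ] (ℝ →ₘ[mu] ℝ)), IsOrliczSpace Φ E J → IsOrliczSpace Φ E' J' →
        ∃ U : E ≃ₗᵢ[ℝ] E', ∀ e, J' (U e) = J e) := by
  constructor
  · obtain ⟨Φ, h, E, i1, i2, i3, J, hJ, hK, hT⟩ := Pool.Agent.Q88.KO.main
      Pool.Agent.Q88.KO.pA Pool.Agent.Q190.KO.pB Pool.Agent.Q88.KO.dictB Pool.Agent.Q88.KO.pD1
      (Pool.Agent.Q88.KO.pW Pool.Agent.Q88.KO.dictA Pool.Agent.Q88.KO.dictB)
      (Pool.Agent.Q190.KO.plA Pool.Agent.Q88.KO.dictB Pool.Agent.Q88.KO.pD2
        (Pool.Agent.Q88.KO.pD3 Pool.Agent.Q88.KO.dictB)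
        (Pool.Agent.Q88.KO.pa Pool.Agent.Q88.KO.dictA Pool.Agent.Q88.KO.dictB
          (Pool.Agent.Q190.KO.pNF Pool.Agent.Q88.KO.dictA Pool.Agent.Q88.KO.dictB)))
      Pool.Agent.Q88.KO.pSS
      (Pool.Agent.Q190.KO.pNF Pool.Agent.Q88.KO.dictA Pool.Agent.Q88.KO.dictB)
      (Pool.Agent.Q88.KO.pFB Pool.Agent.Q88.KO.dictA)
      (Pool.Agent.Q88.KO.pNC Pool.Agent.Q88.KO.dictB
        (Pool.Agent.Q88.KO.pD3 Pool.Agent.Q88.KO.dictB))
      (Pool.Agent.Q88.KO.pG Pool.Agent.Q88.KO.dictA Pool.Agent.Q88.KO.dictB)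
    exact ⟨Φ, ⟨h.convex, h.mono, h.cont, h.zero, h.ne⟩, E, i1, i2, i3, J,
      ⟨hJ.inj, hJ.mem, hJ.norm⟩, hK, hT⟩
  · intro Φ E _ _ J E' _ _ J' h h'
    have hr : LinearMap.range J = LinearMap.range J' := by
      ext f
      rw [LinearMap.mem_range, LinearMap.mem_range, h.mem, h'.mem]
    let U₀ : E ≃ₗ[ℝ] E' := (LinearEquiv.ofInjective J h.inj).trans
      ((LinearEquiv.ofEq _ _ hr).trans (LinearEquiv.ofInjective J' h'.inj).symm)
    have hU : ∀ e, J' (U₀ e) = J e := by
      intro e
      have h1 : (LinearEquiv.ofInjective J' h'.inj) (U₀ e) =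
          LinearEquiv.ofEq _ _ hr (LinearEquiv.ofInjective J h.inj e) := by
        simp [U₀]
      have h2 := congrArg Subtype.val h1
      simpa using h2
    refine ⟨⟨U₀, fun e => ?_⟩, fun e => hU e⟩
    rw [h'.norm, h.norm, hU e]

end Pool.Agent.Results.MP_8301f5_an.KatoNotTwoDH
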